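import Pool.Agent.V8H92.TB.Kod
import Pool.Agent.V8H92.TA.Form

/-!
Forms on the quotient curve.
-/

set_option autoImplicit false
set_option linter.unusedSectionVars false

open FF IntermediateField Pool.Agent.W603.LV Pool.Agent.W619.PQ Pool.Agent.W602.GT
  Pool.Agent.V8H92.TA

namespace Pool.Agent.V8H92.TB

section

variable {k E : Type} [Field k] [CharZero k] [IsAlgClosed k] [Field E] [Algebra k E]
  [hE : IsFF k E]

/-- Forms on curves. -/
theorem curve_form (m : ℕ) {D1 : Derivation k E E} (hD1 : D1 ≠ 0) {c1 : E} (hc1 : c1 ≠ 0) :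
    ∃ η : (Fin 1 → Derivation k E E) → E, IsPluri m η ∧ (∃ D, η D ≠ 0) ∧
      ∀ (q : Place k E) (D : Fin 1 → Derivation k E E), (∀ i, DerLog q (D i)) →
        η D = 0 ∨ q.ord c1 + m * (1 - vo q D1) ≤ q.ord (η D) := by
  obtain ⟨x, hx⟩ := IsFF.exists_transcendental (k := k) (K := E)
  have hDx : D1 x ≠ 0 := der_ne_zero hD1 hx
  refine ⟨fun D => c1 / (D1 x) ^ m * (D 0 x) ^ m, ?_, ⟨fun _ => D1, ?_⟩, ?_⟩
  · intro A D
    rw [Matrix.det_fin_one]
    change c1 / (D1 x) ^ m * ((∑ j, A 0 j • D j) x) ^ m = _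
    rw [sum_apply', Fin.sum_univ_one]
    change c1 / (D1 x) ^ m * (A 0 0 * D 0 x) ^ m = _
    rw [mul_pow]
    ring
  · change c1 / (D1 x) ^ m * (D1 x) ^ m ≠ 0
    rw [div_mul_cancel₀ _ (pow_ne_zero _ hDx)]
    exact hc1
  · intro q D hD
    by_cases h0 : c1 / (D1 x) ^ m * (D 0 x) ^ m = 0
    · exact Or.inl h0
    right
    rcases Nat.eq_zero_or_pos m with hm | hm
    · subst hm
      simp
    have hD0x : D 0 x ≠ 0 := by
      intro h
      rw [h, zero_pow hm.ne', mul_zero] at h0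
      exact h0 rfl
    obtain ⟨π, hπ0, hπ⟩ := q.surj
    have hπt : Transcendental k π := q.transcendental_of_ord_ne (by omega)
    obtain ⟨r, hr, -⟩ := ratio' (K := E) hπt x
    have hr0 : r ≠ 0 := by
      intro h
      have := hr D1
      rw [h, zero_mul] at this
      exact hDx this
    have hD1π : D1 π ≠ 0 := der_ne_zero hD1 hπt
    have hDπ : D 0 π ≠ 0 := by
      intro h
      have := hr (D 0)
      rw [h, mul_zero] at this
      exact hD0x this
    have h1 : c1 / (D1 x) ^ m * (D 0 x) ^ m = c1 * (D 0 π / D1 π) ^ m := by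
      rw [hr D1, hr (D 0), mul_pow, mul_pow, div_pow]
      have := pow_ne_zero m hr0
      have := pow_ne_zero m hD1π
      field_simp
    have h2 : 1 ≤ q.ord (D 0 π) := by
      have h3 := (hD 0 π).resolve_left (div_ne_zero hDπ hπ0)
      rw [q.ord_div hDπ hπ0, hπ] at h3
      omega
    change q.ord c1 + m * (1 - vo q D1) ≤ q.ord (c1 / (D1 x) ^ m * (D 0 x) ^ m)
    rw [h1, q.ord_mul hc1 (pow_ne_zero _ (div_ne_zero hDπ hD1π)), q.ord_pow,
      q.ord_div hDπ hD1π, ← vo_eq q hπ hD1]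
    have h3 : (0 : ℤ) ≤ m := by positivity
    nlinarith

end

section

variable {k K : Type} [Field k] [CharZero k] [IsAlgClosed k] [Field K] [Algebra k K]
  {F : IntermediateField k K} {n : ℕ} {t : Fin n → K} {Bd : Place k K → Prop}

/-- A form on the curve gives a logarithmic form on the variety. -/
theorem kodGe_of_form [hF : IsFF k F] (ht : AlgebraicIndependent F t)
    (htop : IntermediateField.adjoin F (Set.range t) = ⊤)
    (hhor : ∀ v : Place k K, ¬ Bd v → MonoPl F t v → (∀ f : F, v.ord (f : K) = 0) →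
      ∀ i, v.ord (t i) = 0)
    {m : ℕ} (hm : 0 < m) {D1 : Derivation k F F} (hD1 : D1 ≠ 0) {c1 : F} (hc1 : c1 ≠ 0)
    (h1 : ∀ q : Place k F, 0 ≤ q.ord c1 + m * (1 - vo q D1))
    (h2 : ∀ (q : Place k F) (v : Place k K) (e : ℕ), ¬ Bd v → MonoPl F t v → Over v q e →
      (m : ℤ) ≤ e * (q.ord c1 + m * (1 - vo q D1))) : KodGe k K (n + 1) Bd 0 := by
  have hess : Algebra.EssFiniteType k F := hF.ess
  obtain ⟨η, h3, h4, h5⟩ := curve_form (E := F) m hD1 hc1
  refine kodGe_of_base (d := 1) (by rw [hF.trdeg]; simp) ht htop hhor hm h3 h4 ?_ ?_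
  · intro q _ D hD
    rcases h5 q D hD with h | h
    · exact Or.inl h
    · exact Or.inr ((h1 q).trans h)
  · intro q _ v e hv hmono hov D hD
    rcases h5 q D hD with h | h
    · exact Or.inl h
    · right
      refine (h2 q v e hv hmono hov).trans ?_
      have : (0 : ℤ) ≤ e := by positivity
      exact mul_le_mul_of_nonneg_left h this

/-- The smallest multiplicity over the point `c` of the monomial divisors with centre on `X`; it
is `0` if there are none. -/
noncomputable def mult (t : Fin n → K) (Bd : Place k K → Prop) (c : Place k F) : ℕ :=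
  sInf {e : ℕ | ∃ v : Place k K, ¬ Bd v ∧ MonoPl F t v ∧ Over v c e}

theorem mult_le {v : Place k K} {c : Place k F} {e : ℕ} (hv : ¬ Bd v) (hm : MonoPl F t v)
    (h : Over v c e) : mult t Bd c ≤ e := Nat.sInf_le ⟨v, hv, hm, h⟩

theorem mult_pos {v : Place k K} {c : Place k F} {e : ℕ} (hv : ¬ Bd v) (hm : MonoPl F t v)
    (h : Over v c e) : 0 < mult t Bd c := by
  have h1 : ({e : ℕ | ∃ v : Place k K, ¬ Bd v ∧ MonoPl F t v ∧ Over v c e} : Set ℕ).Nonempty :=
    ⟨e, v, hv, hm, h⟩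
  obtain ⟨v', -, -, h3⟩ := Nat.sInf_mem h1
  exact h3.1

/-- An irrational quotient curve. -/
theorem kodGe_of_irrational [hF : IsFF k F] (ht : AlgebraicIndependent F t)
    (htop : IntermediateField.adjoin F (Set.range t) = ⊤)
    (hhor : ∀ v : Place k K, ¬ Bd v → MonoPl F t v → (∀ f : F, v.ord (f : K) = 0) →
      ∀ i, v.ord (t i) = 0)
    (hirr : ¬ ∃ x : F, k⟮x⟯ = ⊤) : KodGe k K (n + 1) Bd 0 := by
  obtain ⟨f, hf0, hf⟩ := exists_regular hirr (der_ne (k := k) (K := F))
  have h1 : ∀ q : Place k F, 1 ≤ q.ord f + ((1 : ℕ) : ℤ) * (1 - vo q (der k F)) := by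
    intro q
    have := hf q
    push_cast
    linarith
  refine kodGe_of_form ht htop hhor one_pos der_ne hf0 (fun q => ?_) (fun q v e _ _ h => ?_)
  · have := h1 q
    linarith
  · have h2 : (1 : ℤ) ≤ e := by exact_mod_cast h.1
    have := h1 q
    push_cast at this ⊢
    nlinarith

/-- A rational quotient curve with many multiple fibres and punctures. -/
theorem kodGe_of_sum [hF : IsFF k F] (ht : AlgebraicIndependent F t)
    (htop : IntermediateField.adjoin F (Set.range t) = ⊤)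
    (hhor : ∀ v : Place k K, ¬ Bd v → MonoPl F t v → (∀ f : F, v.ord (f : K) = 0) →
      ∀ i, v.ord (t i) = 0)
    {B : Finset (Place k F)}
    {x : F} (hx : k⟮x⟯ = ⊤) (hsum : (2 : ℚ) ≤ ∑ c ∈ B, (1 - 1 / (mult t Bd c : ℚ))) :
    KodGe k K (n + 1) Bd 0 := by
  classical
  obtain ⟨D, hD, hDx⟩ := exists_ddx (transcendental_of_top hx)
  set m : ℕ := ∏ q ∈ B.filter (fun q => mult t Bd q ≠ 0), mult t Bd q with hm
  have hm1 : 1 ≤ m := Nat.one_le_iff_ne_zero.2 (Finset.prod_ne_zero_iff.2 fun q hq =>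
    (Finset.mem_filter.1 hq).2)
  have hdvd : ∀ q ∈ B, mult t Bd q ≠ 0 → mult t Bd q ∣ m := fun q hq hq2 =>
    Finset.dvd_prod_of_mem _ (Finset.mem_filter.2 ⟨hq, hq2⟩)
  let r : Place k F → ℤ := fun q => if mult t Bd q = 0 then m else m - (m / mult t Bd q : ℕ)
  have hr : ∀ q ∈ B, mult t Bd q ≠ 0 → (mult t Bd q : ℤ) * (m - r q) = m := by
    intro q hq hq2
    have h1 : mult t Bd q * (m / mult t Bd q) = m := Nat.mul_div_cancel' (hdvd q hq hq2)
    simp only [r, if_neg hq2]
    have h2 : (mult t Bd q : ℤ) * ((m / mult t Bd q : ℕ) : ℤ) = m := by exact_mod_cast h1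
    linarith
  have hrQ : ∀ q ∈ B, (r q : ℚ) = m * (1 - 1 / (mult t Bd q : ℚ)) := by
    intro q hq
    by_cases hq2 : mult t Bd q = 0
    · simp only [r, if_pos hq2]
      rw [hq2]
      simp
    · have h1 := hr q hq hq2
      have h2 : (mult t Bd q : ℚ) ≠ 0 := by exact_mod_cast hq2
      have h3 : (mult t Bd q : ℚ) * ((m : ℚ) - r q) = m := by exact_mod_cast h1
      field_simp
      linarith
  have hsumr : 2 * (m : ℤ) + (0 : ℕ) ≤ ∑ q ∈ B, r q := by
    have h1 : ((∑ q ∈ B, r q : ℤ) : ℚ) = m * ∑ q ∈ B, (1 - 1 / (mult t Bd q : ℚ)) := by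
      rw [Int.cast_sum, Finset.mul_sum]
      exact Finset.sum_congr rfl hrQ
    have h2 : (2 : ℚ) * m ≤ ((∑ q ∈ B, r q : ℤ) : ℚ) := by
      rw [h1]
      have : (0 : ℚ) ≤ m := by positivity
      nlinarith
    rw [Nat.cast_zero, add_zero]
    exact_mod_cast h2
  obtain ⟨c, hc0, hc⟩ := Pool.Agent.W619.PL.exists_form_gen hx B r m 0 hsumr hD hDx
  have hmz : (0 : ℤ) ≤ m := by positivity
  have hnn : ∀ q : Place k F, 0 ≤ q.ord c + m * (1 - vo q D) := by
    intro q
    have h1 := hc 0 le_rfl q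
    rw [pow_zero, mul_one] at h1
    refine le_trans ?_ h1
    by_cases hqB : q ∈ B
    · rw [if_pos hqB]
      by_cases hq2 : mult t Bd q = 0
      · simp only [r, if_pos hq2]
        linarith
      · have h2 := hr q hqB hq2
        have h3 : (0 : ℤ) < mult t Bd q := by exact_mod_cast Nat.pos_of_ne_zero hq2
        have h4 : 0 ≤ (mult t Bd q : ℤ) * (m - r q) := by rw [h2]; exact hmz
        exact nonneg_of_mul_nonneg_right h4 h3
    · rw [if_neg hqB]
      linarith
  refine kodGe_of_form ht htop hhor hm1 hD hc0 hnn (fun q v e hv hmo h => ?_)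
  have h1 := hc 0 le_rfl q
  rw [pow_zero, mul_one] at h1
  have hle : (mult t Bd q : ℤ) ≤ e := by exact_mod_cast mult_le hv hmo h
  have hpos := mult_pos hv hmo h
  have hnn' := hnn q
  have h3 : (mult t Bd q : ℤ) * (q.ord c + m * (1 - vo q D)) ≤
      e * (q.ord c + m * (1 - vo q D)) := mul_le_mul_of_nonneg_right hle hnn'
  refine le_trans ?_ h3
  by_cases hqB : q ∈ B
  · rw [if_pos hqB] at h1
    have h4 := mul_le_mul_of_nonneg_left h1 (Int.natCast_nonneg (mult t Bd q))
    rw [hr q hqB hpos.ne'] at h4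
    exact h4
  · rw [if_neg hqB] at h1
    have h5 : (1 : ℤ) ≤ mult t Bd q := by exact_mod_cast hpos
    nlinarith

end

end Pool.Agent.V8H92.TB
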