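import Pool.Agent.V8H92.TB.Hor
import Pool.Agent.V8H92.TB.Lft
import Pool.Agent.V8H92.TA.Orb
import Pool.Agent.V8H92.TA.Neg
import Pool.Agent.W602.GT.KPsefS

/-!
`A¹`-uniruledness and the logarithmic Kodaira dimension of varieties which contain the product of
a torus and a curve.
-/

set_option autoImplicit false
set_option linter.unusedSectionVars false

open FF IntermediateField Pool.Agent.W603.LV Pool.Agent.W619.PQ Pool.Agent.W619.PL
  Pool.Agent.W602.GT Pool.Agent.V8H92.TA

namespace Pool.Agent.V8H92.TB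

section

variable {k K : Type} [Field k] [CharZero k] [IsAlgClosed k] [Field K] [Algebra k K]
  {F : IntermediateField k K} {n d : ℕ}
  {t : Fin n → K} {Bd : Place k K → Prop} {B : Finset (Place k F)}

/-- The extension of a place of `F` with the value zero on the `t i`. -/
theorem exists_gauss_place (ht : AlgebraicIndependent F t)
    (htop : IntermediateField.adjoin F (Set.range t) = ⊤) (c : Place k F) :
    ∃ v : Place k K, MonoPl F t v ∧ Over v c 1 ∧ ∀ i, v.ord (t i) = 0 := by
  classical
  obtain ⟨V, hV⟩ := exists_gauss (Fin n) c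
  let R := MvPolynomial (Fin n) F
  let L := FractionRing R
  have hX : AlgebraicIndependent F (fun i : Fin n => algebraMap R L (MvPolynomial.X i)) := by
    have h1 : AlgebraicIndependent F (MvPolynomial.X : Fin n → R) :=
      MvPolynomial.algebraicIndependent_X _ _
    exact h1.map' (f := IsScalarTower.toAlgHom F R L) (IsFractionRing.injective R L)
  obtain ⟨φ, hφ⟩ := exists_lift ht htop hX
  have hφQ : ∀ Q : R, φ (MvPolynomial.aeval t Q) = algebraMap R L Q := by
    intro Q
    have h1 : (φ.comp (MvPolynomial.aeval t) : R →ₐ[F] L) = IsScalarTower.toAlgHom F R L := by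
      ext i
      simp [hφ]
      rfl
    have := congrArg (fun f => f Q) h1
    exact this
  have hVF : ∀ f : F, V.ord (φ (f : K)) = c.ord f := by
    intro f
    by_cases hf : f = 0
    · rw [hf, ZeroMemClass.coe_zero, map_zero, V.ord_zero, c.ord_zero]
    · have h1 : φ (f : K) = algebraMap R L (MvPolynomial.C f) := by
        have h2 : φ (algebraMap F K f) = algebraMap F L f := φ.commutes f
        rw [IsScalarTower.algebraMap_apply F R L] at h2
        exact h2
      rw [h1]
      exact hV _ _ (isOrd_C hf)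
  have hVX : ∀ i, V.ord (φ (t i)) = 0 := by
    intro i
    rw [hφ]
    apply hV
    refine ⟨fun a => ?_, Finsupp.single i 1, ?_, ?_⟩
    · rw [MvPolynomial.coeff_X]
      split_ifs
      · exact Ge.one
      · exact Ge.zero
    · rw [MvPolynomial.coeff_X, if_pos rfl]
      exact one_ne_zero
    · rw [MvPolynomial.coeff_X, if_pos rfl, c.ord_one]
  let v : Place k K :=
    { ord := fun f => V.ord (φ f)
      ord_zero := by rw [map_zero, V.ord_zero]
      ord_mul := fun {f g} hf hg => by
        rw [map_mul, V.ord_mul ((map_ne_zero _).2 hf) ((map_ne_zero _).2 hg)]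
      ord_add := fun {f g} hf hg hfg => by
        rw [map_add]
        exact V.ord_add ((map_ne_zero _).2 hf) ((map_ne_zero _).2 hg)
          (by rw [← map_add]; exact (map_ne_zero _).2 hfg)
      ord_const := fun {r} hr => by
        have h1 := hVF (algebraMap k F r)
        rw [c.ord_const hr] at h1
        exact h1
      surj := by
        obtain ⟨s, hs0, hs⟩ := c.surj
        refine ⟨(s : K), fun h => hs0 (Subtype.ext h), ?_⟩
        rw [hVF, hs] }
  refine ⟨v, isMono_of ht fun Q r hQ hr => ?_, ⟨one_pos, fun f => ?_⟩, hVX⟩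
  · change V.ord (φ (MvPolynomial.aeval t Q)) = r
    rw [hφQ]
    apply hV
    have h1 : ∀ a ∈ Q.support, c.ord (Q.coeff a) = r := by
      intro a ha
      have h2 := hr a ha
      rw [ord_term ht ha] at h2
      have h3 : ∀ i, v.ord ((RingHom.id K) (t i)) = 0 := hVX
      simp only [h3, mul_zero, Finset.sum_const_zero, add_zero] at h2
      have h4 : v.ord ((RingHom.id K) (algebraMap F K (Q.coeff a))) = c.ord (Q.coeff a) :=
        hVF _
      rwa [h4] at h2
    refine ⟨fun a => ?_, ?_⟩
    · by_cases ha : a ∈ Q.support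
      · exact Or.inr (h1 a ha).ge
      · exact Or.inl (MvPolynomial.notMem_support_iff.1 ha)
    · obtain ⟨a, ha⟩ := MvPolynomial.support_nonempty.2 hQ
      exact ⟨a, MvPolynomial.mem_support_iff.1 ha, h1 a ha⟩
  · rw [Nat.cast_one, one_mul]
    exact hVF f

/-- Outside `B` the fibres have a component of multiplicity one. -/
theorem mult_eq_one (ht : AlgebraicIndependent F t)
    (htop : IntermediateField.adjoin F (Set.range t) = ⊤)
    (hopen : ∀ v : Place k K, (∀ i, v.ord (t i) = 0) → (∀ c ∈ B, ∀ e, ¬ Over v c e) → ¬ Bd v)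
    {c : Place k F} (hc : c ∉ B) : mult t Bd c = 1 := by
  obtain ⟨v, hm, hover, hvt⟩ := exists_gauss_place ht htop c
  have hv : ¬ Bd v := by
    refine hopen v hvt fun c' hc' e he => ?_
    have : c' = c := place_eq_of_prop he.1 one_pos fun f => by
      rw [← he.2 f, ← hover.2 f]
    exact hc (this ▸ hc')
  have h1 := mult_le hv hm hover
  have h2 := mult_pos hv hm hover
  omega

theorem ess_top [hess : Algebra.EssFiniteType k F]
    (htop : IntermediateField.adjoin F (Set.range t) = ⊤) : Algebra.EssFiniteType k K := by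
  have h1 : (⊤ : IntermediateField F K).FG := by
    rw [← htop]
    have := IntermediateField.fg_adjoin_finset (F := F) ((Set.finite_range t).toFinset)
    rwa [Set.Finite.coe_toFinset] at this
  have h2 : Algebra.EssFiniteType F (⊤ : IntermediateField F K) :=
    (IntermediateField.essFiniteType_iff).2 h1
  have h3 : Algebra.EssFiniteType F K := (Algebra.EssFiniteType.iff_of_algEquiv
    (IntermediateField.topEquiv (F := F) (E := K))).1 h2
  exact Algebra.EssFiniteType.comp k F K

/-- **Varieties which contain the product of a torus and a curve.** -/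
theorem tfae [hF : IsFF k F] (ht : AlgebraicIndependent F t)
    (htop : IntermediateField.adjoin F (Set.range t) = ⊤)
    (hopen : ∀ v : Place k K, (∀ i, v.ord (t i) = 0) → (∀ c ∈ B, ∀ e, ¬ Over v c e) → ¬ Bd v) :
    [¬ KodGe k K (n + 1) Bd 0, ¬ Pool.Agent.W602.GT.Psef k K (n + 1) Bd,
      IsA1Uniruled k K (n + 1) Bd,
      (∃ v : Place k K, ¬ Bd v ∧ MonoPl F t v ∧ (∀ f : F, v.ord (f : K) = 0) ∧
        ∃ i, v.ord (t i) ≠ 0) ∨
        ((∃ x : F, k⟮x⟯ = ⊤) ∧ ∑ c ∈ B, (1 - 1 / (mult t Bd c : ℚ)) < 2)].TFAE := by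
  classical
  have hess : Algebra.EssFiniteType k F := hF.ess
  have hessK : Algebra.EssFiniteType k K := ess_top htop
  have htr1 : Algebra.trdeg k F = ((1 : ℕ) : Cardinal) := by rw [hF.trdeg]; simp
  have htrK : Algebra.trdeg k K = (n + 1 : ℕ) := trdeg_top htr1 ht htop
  tfae_have 3 → 2 := not_psef_of_a1 htrK
  tfae_have 2 → 1 := fun h h' => h (psef_of_kodGe h')
  tfae_have 1 → 4 := by
    intro h
    by_contra hcon
    push Not at hcon
    obtain ⟨h1, h2⟩ := hcon
    have hhor : ∀ v : Place k K, ¬ Bd v → MonoPl F t v → (∀ f : F, v.ord (f : K) = 0) →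
      ∀ i, v.ord (t i) = 0 := h1
    by_cases hrat : ∃ x : F, k⟮x⟯ = ⊤
    · obtain ⟨x, hx⟩ := hrat
      exact h (kodGe_of_sum ht htop hhor hx (h2 ⟨x, hx⟩))
    · exact h (kodGe_of_irrational ht htop hhor hrat)
  tfae_have 4 → 3 := by
    rintro (⟨v, hv, hm, htriv, i, hi⟩ | ⟨⟨x, hx⟩, hsum⟩)
    · exact a1_horizontal htr1 ht htop (fun P h1 h2 => hopen P h2 fun c _ e =>
        not_over_of_trivial h1 c e) hv hm htriv i hi
    · obtain ⟨g, hg⟩ := exists_orbifold_line hx B (fun c => mult t Bd c)
        (fun c hc => mult_eq_one ht htop hopen hc) hsum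
      refine a1_of_base ht htop hopen g fun q hq c e he hce => ?_
      obtain ⟨h1, h2⟩ := hg q hq c e he hce
      have h3 : ({e : ℕ | ∃ v : Place k K, ¬ Bd v ∧ MonoPl F t v ∧ Over v c e} :
          Set ℕ).Nonempty := by
        by_contra h
        rw [Set.not_nonempty_iff_eq_empty] at h
        exact h1 (by unfold mult; rw [h]; exact Nat.sInf_empty)
      obtain ⟨v, hv, hm, hvc⟩ := Nat.sInf_mem h3
      exact ⟨v, mult t Bd c, hv, hm, hvc, h2⟩
  tfae_finish

/-- **Varieties fibred over a variety of logarithmic Kodaira dimension at least zero**, such that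
the generic fibre contains a torus. -/
theorem tfae_base [hess : Algebra.EssFiniteType k F] (htr : Algebra.trdeg k F = d)
    (ht : AlgebraicIndependent F t) (htop : IntermediateField.adjoin F (Set.range t) = ⊤)
    (hgen : ∀ P : Place k K, (∀ f : F, P.ord (f : K) = 0) → (∀ i, P.ord (t i) = 0) → ¬ Bd P)
    {BdF : Place k F → Prop} (hmor : ∀ v : Place k K, ¬ Bd v → ∀ (c : Place k F) (e : ℕ),
      Over v c e → ¬ BdF c) (hF : KodGe k F d BdF 0) :
    [¬ KodGe k K (n + d) Bd 0, ¬ Pool.Agent.W602.GT.Psef k K (n + d) Bd,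
      IsA1Uniruled k K (n + d) Bd,
      ∃ v : Place k K, ¬ Bd v ∧ MonoPl F t v ∧ (∀ f : F, v.ord (f : K) = 0) ∧
        ∃ i, v.ord (t i) ≠ 0].TFAE := by
  classical
  have hessK : Algebra.EssFiniteType k K := ess_top htop
  have htrK : Algebra.trdeg k K = (n + d : ℕ) := trdeg_top htr ht htop
  tfae_have 3 → 2 := not_psef_of_a1 htrK
  tfae_have 2 → 1 := fun h h' => h (psef_of_kodGe h')
  tfae_have 1 → 4 := by
    intro h
    by_contra hcon
    push Not at hcon
    apply h
    obtain ⟨m, hm, ω, hω, D, hD, -⟩ := hF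
    obtain ⟨h1, h2, h3⟩ := hω 0
    refine kodGe_of_base htr ht htop hcon hm h1 ⟨D, hD⟩ h2 ?_
    intro c hc v e hv hmono hov D' hD'
    rcases log_gain htr hc h1 (h3 c hc (hmor v hv c e hov)) hD' with h4 | h4
    · exact Or.inl h4
    · right
      have h5 : (1 : ℤ) ≤ e := by exact_mod_cast hov.1
      have h6 : (0 : ℤ) ≤ m := by positivity
      nlinarith
  tfae_have 4 → 3 := by
    rintro ⟨v, hv, hm, htriv, i, hi⟩
    exact a1_horizontal htr ht htop hgen hv hm htriv i hi
  tfae_finish

end

end Pool.Agent.V8H92.TB
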