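import Pool.Agent.V8H92.TB.Rel

/-!
Logarithmic frames of a subfield, and pulled-back pluricanonical forms.
-/

set_option autoImplicit false
set_option linter.unusedSectionVars false

open FF Pool.Agent.W603.LV Pool.Agent.W619.PQ MvPolynomial Pool.Agent.V8H92.TA

namespace Pool.Agent.V8H92.TB

section

variable {k K : Type} [Field k] [CharZero k] [Field K] [Algebra k K] {F : IntermediateField k K}
  {n d : ℕ} {t : Fin n → K} {v : Place k K}

/-- Coordinates on `F` and the dual logarithmic vector fields. -/
structure Frame (z : Fin d → F) (Λ : Fin d → Derivation k F F) : Prop where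
  basis : IsTranscendenceBasis k z
  dual : ∀ i j, Λ i (z j) = if i = j then z j else 0

theorem Frame.ne {z : Fin d → F} {Λ : Fin d → Derivation k F F} (h : Frame z Λ) (i : Fin d) :
    z i ≠ 0 := h.basis.1.ne_zero i

theorem Frame.chain {z : Fin d → F} {Λ : Fin d → Derivation k F F} (h : Frame z Λ)
    (D : Derivation k K K) (f : F) : D (algebraMap F K f) =
      ∑ i, D (algebraMap F K (z i)) / algebraMap F K (z i) * algebraMap F K (Λ i f) := by
  have h1 := Pool.Agent.W73.PG.PULL.chain z h.basis (fun i => (z i)⁻¹ • Λ i) (fun i j => by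
    change (z i)⁻¹ * Λ i (z j) = _
    rw [h.dual]
    split_ifs with hij
    · rw [← hij, inv_mul_cancel₀ (h.ne i)]
    · rw [mul_zero]) D f
  rw [h1]
  refine Finset.sum_congr rfl fun i _ => ?_
  change _ * algebraMap F K ((z i)⁻¹ * Λ i f) = _
  rw [map_mul, map_inv₀]
  ring

/-- The coordinates on `K`. -/
noncomputable def crd (t : Fin n → K) (z : Fin d → F) : Fin (n + d) → K :=
  Fin.append t (fun i => algebraMap F K (z i))

theorem crd_ne (ht : AlgebraicIndependent F t) {z : Fin d → F} (hz : ∀ i, z i ≠ 0)
    (i : Fin (n + d)) : crd t z i ≠ 0 := by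
  unfold crd
  refine Fin.addCases (fun j => ?_) (fun j => ?_) i
  · rw [Fin.append_left]
    exact ht.ne_zero j
  · rw [Fin.append_right]
    exact (map_ne_zero _).2 (hz j)

/-- The matrix of the logarithmic differentials. -/
noncomputable def lmat {N : ℕ} (x : Fin N → K) (D : Fin N → Derivation k K K) :
    Matrix (Fin N) (Fin N) K := Matrix.of fun j i => D j (x i) / x i

/-- **Regularity at places which are not monomial.** -/
theorem ge_det_of_not_mono (ht : AlgebraicIndependent F t) (hv : ¬ MonoPl F t v)
    {z : Fin d → F} {Λ : Fin d → Derivation k F F} (hfr : Frame z Λ)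
    (D : Fin (n + d) → Derivation k K K) (hD : ∀ j, Pres v (D j)) :
    Ge v 0 (lmat (crd t z) D).det := by
  classical
  obtain ⟨Q, a0, j0, ha0, hR, hw, hb0, hb, hrel⟩ := exists_rel ht hv
  let w : (Fin n →₀ ℕ) → K := fun a => term t Q a / term t Q a0
  let b : Fin (n + d) → K := Fin.append
    (fun i => ∑ a ∈ Q.support, w a * (((a i : ℤ) - a0 i : ℤ) : K))
    (fun i => ∑ a ∈ Q.support, w a * algebraMap F K (Λ i (Q.coeff a) / Q.coeff a -
      Λ i (Q.coeff a0) / Q.coeff a0))
  refine det_rel v D hD (crd t z) b (crd_ne ht hfr.ne) (Fin.castAdd d j0) ?_ ?_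
    (aeval t Q / term t Q a0) hR fun j => ?_
  · change Fin.append _ _ (Fin.castAdd d j0) ≠ 0
    rw [Fin.append_left]
    exact hb0
  · change v.ord (Fin.append _ _ (Fin.castAdd d j0)) = 0
    rw [Fin.append_left]
    exact hb
  · rw [hrel, Fin.sum_univ_add]
    simp only [b, crd, Fin.append_left, Fin.append_right]
    have hF : ∀ a ∈ Q.support, D j (algebraMap F K (Q.coeff a)) / algebraMap F K (Q.coeff a) =
        ∑ i, D j (algebraMap F K (z i)) / algebraMap F K (z i) *
          algebraMap F K (Λ i (Q.coeff a) / Q.coeff a) := by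
      intro a ha
      rw [hfr.chain (D j) (Q.coeff a), Finset.sum_div]
      refine Finset.sum_congr rfl fun i _ => ?_
      rw [map_div₀]
      ring
    have h1 : ∀ a ∈ Q.support, w a *
        ((D j (algebraMap F K (Q.coeff a)) / algebraMap F K (Q.coeff a) -
            D j (algebraMap F K (Q.coeff a0)) / algebraMap F K (Q.coeff a0)) +
            ∑ i, (((a i : ℤ) - a0 i : ℤ) : K) * (D j (t i) / t i)) =
        (∑ i, w a * (((a i : ℤ) - a0 i : ℤ) : K) * (D j (t i) / t i)) +
        ∑ i, w a * algebraMap F K (Λ i (Q.coeff a) / Q.coeff a -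
          Λ i (Q.coeff a0) / Q.coeff a0) * (D j (algebraMap F K (z i)) / algebraMap F K (z i)) := by
      intro a ha
      rw [hF a ha, hF a0 ha0, ← Finset.sum_sub_distrib, mul_add, Finset.mul_sum, Finset.mul_sum,
        add_comm]
      congr 1
      · refine Finset.sum_congr rfl fun i _ => ?_
        ring
      · refine Finset.sum_congr rfl fun i _ => ?_
        rw [map_sub]
        ring
    rw [Finset.sum_congr rfl h1, Finset.sum_add_distrib, Finset.sum_comm]
    congr 1
    · refine Finset.sum_congr rfl fun i _ => ?_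
      rw [Finset.sum_mul]
    · rw [Finset.sum_comm]
      refine Finset.sum_congr rfl fun i _ => ?_
      rw [Finset.sum_mul]

end

end Pool.Agent.V8H92.TB
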