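import Pool.Agent.V8H92.TB.Pul
import Pool.Agent.V8H92.TB.Div
import Pool.Agent.W602.GT.KDefs
import Pool.Agent.Y199.NN.NegA1
import Pool.Agent.W619.Y.Parts

/-!
Logarithmic pluricanonical forms from forms on the base.
-/

set_option autoImplicit false
set_option linter.unusedSectionVars false

open FF IntermediateField Pool.Agent.W603.LV Pool.Agent.W619.PQ Pool.Agent.W602.GT
  Pool.Agent.V8H92.TA

namespace Pool.Agent.V8H92.TB

section

variable {k E : Type} [Field k] [CharZero k] [Field E] [Algebra k E] {d : ℕ}

theorem basis_of_trdeg' (htr : Algebra.trdeg k E = d) : ∃ z : Fin d → E, IsTranscendenceBasis k z := by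
  obtain ⟨s, hs⟩ := exists_isTranscendenceBasis k E
  have h1 : Cardinal.mk s = d := by rw [hs.cardinalMk_eq_trdeg, htr]
  have h2 : Cardinal.mk (Fin d) = Cardinal.mk s := by rw [h1]; simp
  obtain ⟨e⟩ := Cardinal.eq.1 h2
  exact ⟨fun i => (e i : E), hs.comp_equiv e⟩

/-- The dual logarithmic vector fields. -/
theorem exists_dual_log {z : Fin d → E} (hz : IsTranscendenceBasis k z) :
    ∃ Λ : Fin d → Derivation k E E, ∀ i j, Λ i (z j) = if i = j then z j else 0 := by
  have h1 : ∀ i, ∃ D : Derivation k E E, ∀ j, D (z j) = if i = j then z j else 0 := fun i =>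
    Pool.Agent.W602.GT.exists_der z hz _
  choose Λ hΛ using h1
  exact ⟨Λ, hΛ⟩

/-- Logarithmic frames at divisorial places. -/
theorem exists_log_frame' [hess : Algebra.EssFiniteType k E] (htr : Algebra.trdeg k E = d)
    {c : Place k E} (hc : Divisorial d c) : ∃ (z : Fin d → E) (D : Fin d → Derivation k E E),
      IsTranscendenceBasis k z ∧ (∀ i j, (z i • D i) (z j) = if i = j then z j else 0) ∧
      (∀ i, DerLog c (z i • D i)) ∧ (∀ i, DerReg c (D i)) ∧ c.ord (∏ i, z i) = 1 := by
  classical
  obtain ⟨y, D, i0, h1, h2, h3, h4, h5⟩ := Pool.Agent.W619.Y.pFRAME.{0, 0} k E d htr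
    (fun y hy => Pool.Agent.Y199.NN.fin_over' y hy) c hc
  have hinf : Infinite k := inferInstance
  -- make the other coordinates units
  have hγ : ∀ i, ∃ γ : k, i ≠ i0 → c.ord (y i + algebraMap k E γ) = 0 := by
    intro i
    by_cases hi : i = i0
    · exact ⟨0, fun h => absurd hi h⟩
    by_cases h0 : c.ord (y i) = 0
    · exact ⟨0, fun _ => by rw [map_zero, add_zero]; exact h0⟩
    · refine ⟨1, fun _ => ?_⟩
      have hy0 : y i ≠ 0 := h1.1.ne_zero i
      have h6 := (h4 i).resolve_left hy0
      have h7 : c.ord (algebraMap k E 1) < c.ord (y i) := by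
        rw [map_one, c.ord_one]
        omega
      rw [add_comm, (c.ord_add_eq (by simp) hy0 h7).2, map_one, c.ord_one]
  choose γ hγ using hγ
  let z : Fin d → E := fun i => if i = i0 then y i else y i + algebraMap k E (γ i)
  have hz : IsTranscendenceBasis k z := by
    have hz' : ∀ i, ∃ a : k, z i = y i + algebraMap k E a := by
      intro i
      by_cases hi : i = i0
      · exact ⟨0, by simp [z, hi]⟩
      · exact ⟨γ i, by simp [z, hi]⟩
    choose a ha using hz'
    have hza : z = fun i => y i + algebraMap k E (a i) := funext ha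
    have hind : AlgebraicIndependent k z := by
      rw [algebraicIndependent_iff]
      intro Q hQ
      let τ : MvPolynomial (Fin d) k →ₐ[k] MvPolynomial (Fin d) k :=
        MvPolynomial.aeval fun i => MvPolynomial.X i + MvPolynomial.C (a i)
      let τ' : MvPolynomial (Fin d) k →ₐ[k] MvPolynomial (Fin d) k :=
        MvPolynomial.aeval fun i => MvPolynomial.X i - MvPolynomial.C (a i)
      have h6 : MvPolynomial.aeval y (τ Q) = MvPolynomial.aeval z Q := by
        have h7 : (MvPolynomial.aeval y).comp τ = (MvPolynomial.aeval z :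
            MvPolynomial (Fin d) k →ₐ[k] E) := by
          ext i
          simp [τ, ha]
        rw [← h7]
        rfl
      have h7 : τ Q = 0 := by
        rw [hQ] at h6
        exact (injective_iff_map_eq_zero _).1 h1.1 _ h6
      have h8 : τ' (τ Q) = Q := by
        have h9 : τ'.comp τ = AlgHom.id k _ := by
          ext i
          simp [τ, τ']
        have := congrArg (fun f => f Q) h9
        exact this
      rw [← h8, h7, map_zero]
    rw [hind.isTranscendenceBasis_iff_isAlgebraic]
    apply Pool.Agent.W619.PQ.alg_adjoin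
    intro w
    have h6 : Algebra.IsAlgebraic (IntermediateField.adjoin k (Set.range y)) E :=
      h1.isAlgebraic_field
    have h7 : IntermediateField.adjoin k (Set.range y) ≤
        IntermediateField.adjoin k (Set.range z) := by
      rw [adjoin_le_iff]
      rintro _ ⟨i, rfl⟩
      have h8 : y i = z i - algebraMap k E (a i) := by rw [ha]; ring
      rw [h8]
      exact sub_mem (subset_adjoin k _ ⟨i, rfl⟩) (IntermediateField.algebraMap_mem _ _)
    have h8 := h6.isAlgebraic w
    refine h8.ringHom_of_comp_eq (inclusion h7).toRingHom (RingHom.id E)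
      (inclusion h7).injective ?_
    ext u
    rfl
  have hzy : ∀ (i : Fin d) (j : Fin d), D i (z j) = if i = j then 1 else 0 := by
    intro i j
    by_cases hj : j = i0
    · simp only [z, if_pos hj]
      exact h2 i j
    · simp only [z, if_neg hj]
      rw [map_add, Derivation.map_algebraMap, add_zero]
      exact h2 i j
  refine ⟨z, D, hz, fun i j => ?_, fun i => ?_, h5, ?_⟩
  · change z i * D i (z j) = _
    rw [hzy]
    split_ifs with hij
    · rw [hij, mul_one]
    · rw [mul_zero]
  · have hy0 : y i0 ≠ 0 := h1.1.ne_zero i0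
    have hzr : c.Reg (z i) := by
      by_cases hi : i = i0
      · simp only [z, if_pos hi]
        exact h4 i
      · simp only [z, if_neg hi]
        exact Or.inr (hγ i hi).ge
    refine Pool.Agent.W619.TW.log_of_pres c _ (fun g hg => ?_) hy0 h3 ?_
    · change c.Reg (z i * D i g)
      exact c.reg_mul hzr (h5 i g hg)
    · change c.Reg (z i * D i (y i0) / y i0)
      rw [h2]
      by_cases hi : i = i0
      · subst hi
        simp only [z, if_true, mul_one]
        rw [div_self hy0]
        exact c.reg_one
      · rw [if_neg hi, mul_zero, zero_div]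
        exact c.reg_zero
  · rw [ord_prod _ _ _ fun i _ => hz.1.ne_zero i, Finset.sum_eq_single i0]
    · simp only [z, if_true]
      exact h3
    · intro i _ hi
      simp only [z, if_neg hi]
      exact hγ i hi
    · intro h
      exact absurd (Finset.mem_univ _) h

theorem exists_log_frame [hess : Algebra.EssFiniteType k E] (htr : Algebra.trdeg k E = d)
    {c : Place k E} (hc : Divisorial d c) : ∃ (z : Fin d → E) (Λ : Fin d → Derivation k E E),
      IsTranscendenceBasis k z ∧ (∀ i j, Λ i (z j) = if i = j then z j else 0) ∧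
      ∀ i, DerLog c (Λ i) := by
  obtain ⟨z, D, h1, h2, h3, -, -⟩ := exists_log_frame' htr hc
  exact ⟨z, fun i => z i • D i, h1, h2, h3⟩

/-- Regular forms vanish on logarithmic vector fields. -/
theorem log_gain [hess : Algebra.EssFiniteType k E] (htr : Algebra.trdeg k E = d)
    {c : Place k E} (hc : Divisorial d c) {m : ℕ} {η : (Fin d → Derivation k E E) → E}
    (hη : IsPluri m η) (hreg : RegAt c η) {D : Fin d → Derivation k E E}
    (hD : ∀ i, DerLog c (D i)) : η D = 0 ∨ (m : ℤ) ≤ c.ord (η D) := by
  classical
  obtain ⟨z, G, h1, h2, h3, h4, h5⟩ := exists_log_frame' htr hc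
  have hz0 : ∀ i, z i ≠ 0 := fun i => h1.1.ne_zero i
  have hsum : ∀ (s : Finset (Fin d)) (g : Fin d → Derivation k E E) (f : E),
      (∑ j ∈ s, g j) f = ∑ j ∈ s, g j f := fun s g f => sum_apply' s g f
  have hexp : (fun i => ∑ j, (Matrix.of fun i j => D i (z j) / z j) i j • (z j • G j)) = D := by
    funext i
    refine der_ext z h1 fun l => ?_
    rw [hsum]
    have h6 : ∀ j, ((Matrix.of fun i j => D i (z j) / z j) i j • (z j • G j)) (z l) =
        if j = l then D i (z l) else 0 := by
      intro j
      change (D i (z j) / z j) * (z j • G j) (z l) = _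
      rw [h2]
      split_ifs with hjl
      · rw [hjl, div_mul_cancel₀ _ (hz0 l)]
      · rw [mul_zero]
    simp only [h6]
    rw [Finset.sum_ite_eq' Finset.univ l (fun _ => D i (z l)), if_pos (Finset.mem_univ _)]
  have h6 := hη (Matrix.of fun i j => D i (z j) / z j) (fun j => z j • G j)
  rw [hexp] at h6
  have h7 : η (fun j => z j • G j) = (∏ i, z i) ^ m * η G := by
    have h8 := hη (Matrix.diagonal z) G
    rw [Matrix.det_diagonal] at h8
    rw [← h8]
    congr 1
    funext i
    rw [Finset.sum_eq_single i]
    · rw [Matrix.diagonal_apply_eq]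
    · intro b _ hb
      rw [Matrix.diagonal_apply_ne _ (Ne.symm hb), zero_smul]
    · intro hi
      exact absurd (Finset.mem_univ i) hi
  have h8 : Ge c 0 (Matrix.of fun i j => D i (z j) / z j).det := ge_det c _ fun i j => hD i (z j)
  have h9 : Ge c m ((∏ i, z i) ^ m) := by
    right
    rw [c.ord_pow, h5, mul_one]
  have h10 : Ge c 0 (η G) := hreg G h4
  have h11 := (h8.pow m).mul (h9.mul h10)
  rw [mul_zero, zero_add, add_zero] at h11
  rw [h6, h7]
  exact h11

end

section

variable {k K : Type} [Field k] [CharZero k] [Field K] [Algebra k K] {F : IntermediateField k K}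
  {n d m : ℕ} {t : Fin n → K} {Bd : Place k K → Prop}

theorem exists_over_F (v : Place k K) (h : ¬ ∀ f : F, v.ord (f : K) = 0) :
    ∃ (e : ℕ) (c : Place k F), Over v c e := by
  push Not at h
  exact exists_over (K := F) v h

theorem basis_of_top' {n : ℕ} {t : Fin n → K} (ht : AlgebraicIndependent F t)
    (htop : IntermediateField.adjoin F (Set.range t) = ⊤) : IsTranscendenceBasis F t := by
  rw [ht.isTranscendenceBasis_iff_isAlgebraic]
  apply Pool.Agent.W602.GT.alg_adjoin
  rw [htop]
  exact ⟨fun z => isAlgebraic_algebraMap (⟨z, trivial⟩ : (⊤ : IntermediateField F K))⟩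

theorem trdeg_top (htr : Algebra.trdeg k F = d) (ht : AlgebraicIndependent F t)
    (htop : IntermediateField.adjoin F (Set.range t) = ⊤) : Algebra.trdeg k K = (n + d : ℕ) := by
  have h1 := (basis_of_top' ht htop).cardinalMk_eq_trdeg
  have h2 := _root_.trdeg_add_eq k F (A := K)
  rw [← h2, ← h1, htr]
  simp [add_comm]

/-- The coordinates on `K` are a transcendence basis. -/
theorem crd_basis (ht : AlgebraicIndependent F t)
    (htop : IntermediateField.adjoin F (Set.range t) = ⊤) {z : Fin d → F}
    (hz : IsTranscendenceBasis k z) : IsTranscendenceBasis k (crd t z) := by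
  have h4 := hz.sumElim_comp (basis_of_top' ht htop)
  have h5 := h4.comp_equiv finSumFinEquiv.symm
  convert h5 using 1
  funext i
  unfold crd
  refine Fin.addCases (fun j => ?_) (fun j => ?_) i
  · rw [Fin.append_left, Function.comp_apply, finSumFinEquiv_symm_apply_castAdd, Sum.elim_inl]
  · rw [Fin.append_right, Function.comp_apply, finSumFinEquiv_symm_apply_natAdd, Sum.elim_inr]
    rfl

/-- **Logarithmic forms from the base.** -/
theorem kodGe_of_base [hess : Algebra.EssFiniteType k F] (htr : Algebra.trdeg k F = d)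
    (ht : AlgebraicIndependent F t) (htop : IntermediateField.adjoin F (Set.range t) = ⊤)
    (hhor : ∀ v : Place k K, ¬ Bd v → MonoPl F t v → (∀ f : F, v.ord (f : K) = 0) →
      ∀ i, v.ord (t i) = 0)
    (hm : 0 < m) {η : (Fin d → Derivation k F F) → F} (hη : IsPluri m η) (hη0 : ∃ D, η D ≠ 0)
    (hlog : ∀ c : Place k F, Divisorial d c → LogAt c η)
    (hreg : ∀ c : Place k F, Divisorial d c → ∀ (v : Place k K) (e : ℕ), ¬ Bd v → MonoPl F t v →
      Over v c e → ∀ D, (∀ i, DerLog c (D i)) → η D = 0 ∨ (m : ℤ) ≤ e * c.ord (η D)) :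
    KodGe k K (n + d) Bd 0 := by
  classical
  obtain ⟨z, hz⟩ := basis_of_trdeg' htr
  obtain ⟨Λ, hΛ⟩ := exists_dual_log hz
  have hfr : Frame z Λ := ⟨hz, hΛ⟩
  have htrK := trdeg_top htr ht htop
  refine ⟨m, hm, fun _ => pull t z Λ m η, fun _ => ⟨pull_pluri z Λ η, ?_, ?_⟩, ?_⟩
  · intro P hP
    by_cases htriv : ∀ f : F, P.ord (f : K) = 0
    · exact pull_log (Or.inr (htriv _).ge)
    · obtain ⟨e, c, hc⟩ := exists_over_F P htriv
      have hcd : Divisorial d c := divisorial_restrict htr htrK hc hP
      obtain ⟨z', Λ', h1, h2, h3⟩ := exists_log_frame htr hcd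
      have hfr' : Frame z' Λ' := ⟨h1, h2⟩
      intro D hD
      change P.Reg (pull t z Λ m η D)
      rw [pull_eq hfr hfr' hη]
      exact pull_log (hc.reg.2 (hlog c hcd Λ' h3)) D hD
  · intro v hvd hv
    by_cases htriv : ∀ f : F, v.ord (f : K) = 0
    · by_cases hmono : MonoPl F t v
      · exact pull_reg_unit (hhor v hv hmono htriv) (fun i => htriv _) (Or.inr (htriv _).ge)
      · exact pull_reg_not_mono ht hmono hfr (Or.inr (htriv _).ge)
    · obtain ⟨e, c, hc⟩ := exists_over_F v htriv
      have hcd : Divisorial d c := divisorial_restrict htr htrK hc hvd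
      obtain ⟨z', Λ', h1, h2, h3⟩ := exists_log_frame htr hcd
      have hfr' : Frame z' Λ' := ⟨h1, h2⟩
      intro D hD
      change v.Reg (pull t z Λ m η D)
      rw [pull_eq hfr hfr' hη]
      by_cases hmono : MonoPl F t v
      · refine pull_reg ht hfr' ?_ D hD
        rcases hreg c hcd v e hv hmono hc Λ' h3 with h4 | h4
        · left
          rw [h4, map_zero]
        · right
          rw [hc.2]
          exact h4
      · exact pull_reg_not_mono ht hmono hfr' (hc.reg.2 (hlog c hcd Λ' h3)) D hD
  · -- nonzero
    have hb := crd_basis ht htop hz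
    obtain ⟨D, hD⟩ := exists_dual_log hb
    refine ⟨D, ?_, algebraicIndependent_empty_type_iff.2 (algebraMap k K).injective⟩
    have h1 : lmat (crd t z) D = 1 := by
      ext i j
      change D i (crd t z j) / crd t z j = _
      rw [hD, Matrix.one_apply]
      split_ifs
      · rw [div_self (crd_ne ht hfr.ne j)]
      · rw [zero_div]
    change (lmat (crd t z) D).det ^ m * algebraMap F K (η Λ) ≠ 0
    rw [h1, Matrix.det_one, one_pow, one_mul]
    refine (map_ne_zero _).2 fun h0 => ?_
    obtain ⟨D', hD'⟩ := hη0
    apply hD'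
    let P : Matrix (Fin d) (Fin d) F := Matrix.of fun i j => D' i (z j) / z j
    have h2 : (fun i => ∑ j, P i j • Λ j) = D' := by
      funext i
      refine der_ext z hz fun l => ?_
      rw [sum_apply']
      have h3 : ∀ j, (P i j • Λ j) (z l) = if j = l then D' i (z l) else 0 := by
        intro j
        change (D' i (z j) / z j) * Λ j (z l) = _
        rw [hΛ]
        split_ifs with hjl
        · rw [hjl, div_mul_cancel₀ _ (hfr.ne l)]
        · rw [mul_zero]
      simp only [h3]
      rw [Finset.sum_ite_eq' Finset.univ l (fun _ => D' i (z l)), if_pos (Finset.mem_univ _)]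
    have h3 := hη P Λ
    rw [h2, h0, mul_zero] at h3
    exact h3

end

end Pool.Agent.V8H92.TB
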