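import Pool.Agent.V8H92.TA.Hor
import Pool.Agent.V8H92.TB.Kod

/-!
`A¹`-uniruledness from horizontal monomial divisors.
-/

set_option autoImplicit false
set_option linter.unusedSectionVars false

open FF IntermediateField Pool.Agent.W603.LV Pool.Agent.W602.GT Pool.Agent.V8H92.TA

namespace Pool.Agent.V8H92.TB

section

variable {k K : Type} [Field k] [Field K] [Algebra k K]
  {F : IntermediateField k K} {n d : ℕ} {t : Fin n → K} {Bd : Place k K → Prop}

/-- Horizontal divisors. -/
theorem a1_horizontal [CharZero k] [IsAlgClosed k] [hess : Algebra.EssFiniteType k F]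
    (htr : Algebra.trdeg k F = d) (ht : AlgebraicIndependent F t)
    (hgt : IntermediateField.adjoin F (Set.range t) = ⊤)
    (hgen : ∀ P : Place k K, (∀ f : F, P.ord (f : K) = 0) → (∀ i, P.ord (t i) = 0) → ¬ Bd P)
    {v : Place k K} (hv : ¬ Bd v) (hvm : MonoPl F t v) (htriv : ∀ f : F, v.ord (f : K) = 0)
    (i0 : Fin n) (hi0 : v.ord (t i0) ≠ 0) :
    Pool.Agent.W619.PL.IsA1Uniruled k K (n + d) Bd := by
  classical
  obtain ⟨g, ρ, b, hg, hρ, hb⟩ := exists_bezout (fun i => v.ord (t i)) i0 hi0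
  have hchar : CharZero F := charZero_of_injective_algebraMap (algebraMap k F).injective
  obtain ⟨D, hD⟩ := exists_der t (basis_of_top ht hgt) (fun i => (ρ i : K) * t i)
  let δ : Derivation k K K := D.restrictScalars k
  have ht0 : ∀ i, t i ≠ 0 := fun i => ht.ne_zero i
  have hδt : ∀ i, δ (t i) = (ρ i : K) * t i := hD
  have hδF : ∀ f : F, δ (f : K) = 0 := fun f => D.map_algebraMap f
  set σ : K := ∏ i, t i ^ b i with hσdef
  have hσ0 : σ ≠ 0 := Finset.prod_ne_zero_iff.2 fun i _ => zpow_ne_zero _ (ht0 i)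
  have hσ : δ σ = σ := by
    rw [hσdef, ld_prod δ Finset.univ (fun i => t i ^ b i) (fun i => (b i : K) * ρ i)]
    · have : (∑ i, (b i : K) * ρ i) = ((∑ i, b i * ρ i : ℤ) : K) := by push_cast; rfl
      rw [this, hb, Int.cast_one, one_mul]
    · intro i _
      rw [ld_zpow δ (ht0 i), hδt, mul_div_assoc, div_self (ht0 i), mul_one]
  let u : Fin n → K := fun i => t i * σ ^ (-ρ i)
  have hδu : ∀ i, δ (u i) = 0 := by
    intro i
    change δ (t i * σ ^ (-ρ i)) = 0
    rw [δ.leibniz, ld_zpow δ hσ0, hσ, div_self hσ0, hδt]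
    simp only [smul_eq_mul]
    push_cast
    ring
  let E : IntermediateField k K := F ⊔ adjoin k (Set.range u)
  have hFE : F ≤ E := le_sup_left
  have huE : ∀ i, u i ∈ E := fun i =>
    (le_sup_right : adjoin k (Set.range u) ≤ E) (subset_adjoin k _ ⟨i, rfl⟩)
  have hEc : E ≤ consts δ := by
    refine sup_le (fun f hf => hδF ⟨f, hf⟩) ?_
    rw [adjoin_le_iff]
    rintro _ ⟨i, rfl⟩
    exact hδu i
  have hfg : E.FG := by
    have h1 : F.FG := (IntermediateField.essFiniteType_iff).1 hess
    have h2 : (adjoin k (Set.range u)).FG := by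
      have := IntermediateField.fg_adjoin_finset (F := k) (Finset.univ.image u)
      rwa [Finset.coe_image, Finset.coe_univ, Set.image_univ] at this
    exact IntermediateField.fg_sup h1 h2
  have hσt : Transcendental E σ := by
    intro h
    have h1 : IsAlgebraic (consts δ) σ := by
      refine h.ringHom_of_comp_eq (inclusion hEc).toRingHom (RingHom.id K)
        (inclusion hEc).injective ?_
      ext z
      rfl
    have h2 := der_of_alg δ h1
    rw [hσ] at h2
    exact hσ0 h2
  have htop : E⟮σ⟯ = ⊤ := by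
    rw [eq_top_iff]
    intro x _
    have hx : x ∈ adjoin F (Set.range t) := by rw [hgt]; trivial
    induction hx using IntermediateField.adjoin_induction with
    | mem x hx =>
      obtain ⟨i, rfl⟩ := hx
      have h1 : t i = u i * σ ^ (ρ i) := by
        change t i = t i * σ ^ (-ρ i) * σ ^ ρ i
        rw [mul_assoc, ← zpow_add₀ hσ0, neg_add_cancel, zpow_zero, mul_one]
      rw [h1]
      exact mul_mem (E⟮σ⟯.algebraMap_mem ⟨u i, huE i⟩)
        (zpow_mem (mem_adjoin_simple_self E σ) _)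
    | algebraMap c => exact E⟮σ⟯.algebraMap_mem ⟨(c : K), hFE c.2⟩
    | add x y _ _ hx hy => exact add_mem (hx mem_top) (hy mem_top)
    | inv x _ hx => exact inv_mem (hx mem_top)
    | mul x y _ _ hx hy => exact mul_mem (hx mem_top) (hy mem_top)
  refine a1_of_field (trdeg_top htr ht hgt) E hσt hfg htop fun P hPE hPσ => ?_
  have hPF : ∀ f : F, P.ord (f : K) = 0 := fun f => hPE _ (hFE f.2)
  have htu : ∀ i, t i = u i * σ ^ (ρ i) := by
    intro i
    change t i = t i * σ ^ (-ρ i) * σ ^ ρ i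
    rw [mul_assoc, ← zpow_add₀ hσ0, neg_add_cancel, zpow_zero, mul_one]
  have hu0 : ∀ i, u i ≠ 0 := fun i => mul_ne_zero (ht0 i) (zpow_ne_zero _ hσ0)
  have hPt : ∀ i, P.ord (t i) = ρ i * P.ord σ := by
    intro i
    conv_lhs => rw [htu i]
    rw [P.ord_mul (hu0 i) (zpow_ne_zero _ hσ0), P.ord_zpow, hPE _ (huE i), zero_add]
  rcases hPσ.eq_or_lt with h0 | hpos
  · refine hgen P hPF (fun i => ?_)
    rw [hPt, ← h0, mul_zero]
  have hterm : ∀ (Q : MvPolynomial (Fin n) F) (a : Fin n →₀ ℕ),
      term t Q a = ((Q.coeff a : F) : K) * (∏ i, u i ^ a i) * σ ^ (∑ i, (a i : ℤ) * ρ i) := by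
    intro Q a
    unfold term
    have h1 : ∏ i, t i ^ a i = (∏ i, u i ^ a i) * σ ^ (∑ i, (a i : ℤ) * ρ i) := by
      have h2 : σ ^ (∑ i, (a i : ℤ) * ρ i) = ∏ i, (σ ^ (ρ i)) ^ a i := by
        have h3 : ∀ s : Finset (Fin n), σ ^ (∑ i ∈ s, (a i : ℤ) * ρ i) =
            ∏ i ∈ s, (σ ^ (ρ i)) ^ a i := by
          intro s
          induction s using Finset.induction_on with
          | empty => simp
          | insert i s hi ih =>
            rw [Finset.sum_insert hi, Finset.prod_insert hi, zpow_add₀ hσ0, ih, mul_comm (a i : ℤ),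
              zpow_mul, zpow_natCast]
        exact h3 _
      rw [h2, ← Finset.prod_mul_distrib]
      refine Finset.prod_congr rfl fun i _ => ?_
      rw [← mul_pow, ← htu i]
    rw [h1, mul_assoc]
    rfl
  have hmono : IsMono F t P (RingHom.id K) := by
    refine isMono_of ht fun Q r hQ hr => ?_
    change P.ord (MvPolynomial.aeval t Q) = r
    have hr' : ∀ a ∈ Q.support, (∑ i, (a i : ℤ) * ρ i) * P.ord σ = r := by
      intro a ha
      rw [← hr a ha]
      change _ = P.ord (term t Q a)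
      have h1 : ((Q.coeff a : F) : K) * (∏ i, u i ^ a i) ≠ 0 := by
        refine mul_ne_zero ?_ (Finset.prod_ne_zero_iff.2 fun i _ => pow_ne_zero _ (hu0 i))
        intro h
        exact (MvPolynomial.mem_support_iff.1 ha) (Subtype.ext h)
      have h2 : P.ord (((Q.coeff a : F) : K) * (∏ i, u i ^ a i)) = 0 :=
        hPE _ (mul_mem (hFE (Q.coeff a).2) (prod_mem fun i _ => pow_mem (huE i) _))
      rw [hterm, P.ord_mul h1 (zpow_ne_zero _ hσ0), P.ord_zpow, h2, zero_add]
    obtain ⟨a0, ha0⟩ := MvPolynomial.support_nonempty.2 hQ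
    set s := ∑ i, (a0 i : ℤ) * ρ i with hs
    have hsall : ∀ a ∈ Q.support, (∑ i, (a i : ℤ) * ρ i) = s := by
      intro a ha
      have h1 := hr' a ha
      rw [← hr' a0 ha0] at h1
      exact mul_right_cancel₀ hpos.ne' h1
    have hsum : MvPolynomial.aeval t Q =
        (∑ a ∈ Q.support, ((Q.coeff a : F) : K) * (∏ i, u i ^ a i)) * σ ^ s := by
      rw [aeval_eq_sum_term, Finset.sum_mul]
      refine Finset.sum_congr rfl fun a ha => ?_
      rw [hterm, hsall a ha]
    have hne := aeval_ne_zero ht hQ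
    have h2 : P.ord (∑ a ∈ Q.support, ((Q.coeff a : F) : K) * (∏ i, u i ^ a i)) = 0 :=
      hPE _ (sum_mem fun a _ =>
        mul_mem (hFE (Q.coeff a).2) (prod_mem fun i _ => pow_mem (huE i) _))
    rw [hsum] at hne ⊢
    rw [P.ord_mul (left_ne_zero_of_mul hne) (zpow_ne_zero _ hσ0), P.ord_zpow, h2, zero_add]
    exact hr' a0 ha0
  have hPn : ((P.ord σ).toNat : ℤ) = P.ord σ := Int.toNat_of_nonneg hpos.le
  have hgz : (0 : ℤ) < g := by exact_mod_cast hg
  have hprop := IsMono.eq_of ht hgt hmono hvm (c := g) (c' := P.ord σ) hgz hpos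
    (fun f => by
      change (g : ℤ) * P.ord (f : K) = P.ord σ * v.ord (f : K)
      rw [hPF, htriv, mul_zero, mul_zero])
    (fun i => by
      change (g : ℤ) * P.ord (t i) = P.ord σ * v.ord (t i)
      have h1 : v.ord (t i) = g * ρ i := hρ i
      rw [hPt, h1]
      ring)
  have hPv : P = v := by
    refine place_eq_of_prop hg (e' := (P.ord σ).toNat) (by omega) fun f => ?_
    rw [hPn]
    exact hprop f
  rw [hPv]
  exact hv

end

end Pool.Agent.V8H92.TB
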