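import Pool.Agent.V8H92.TB.Frm
import Pool.Agent.W602.GT.KPick

/-!
Pulled-back pluricanonical forms, multiplied with a logarithmic form.
-/

set_option autoImplicit false
set_option linter.unusedSectionVars false

open FF Pool.Agent.W603.LV Pool.Agent.W619.PQ Pool.Agent.W602.GT Pool.Agent.V8H92.TA

namespace Pool.Agent.V8H92.TB

section

variable {k K : Type} [Field k] [CharZero k] [Field K] [Algebra k K] {F : IntermediateField k K}
  {n d m : ℕ} {t : Fin n → K} {v : Place k K}

/-- The product of the pull-back of the form `η` and the `m`-th power of the logarithmic form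
given by `t`. -/
noncomputable def pull (t : Fin n → K) (z : Fin d → F) (Λ : Fin d → Derivation k F F) (m : ℕ)
    (η : (Fin d → Derivation k F F) → F) (D : Fin (n + d) → Derivation k K K) : K :=
  (lmat (crd t z) D).det ^ m * algebraMap F K (η Λ)

theorem sum_apply' {ι L : Type} [Field L] [Algebra k L] (s : Finset ι)
    (g : ι → Derivation k L L) (f : L) : (∑ c ∈ s, g c) f = ∑ c ∈ s, g c f := by
  classical
  induction s using Finset.induction_on with
  | empty => rfl
  | insert a s ha ih =>
    rw [Finset.sum_insert ha, Finset.sum_insert ha, ← ih]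
    rfl

theorem lmat_mul {N : ℕ} (x : Fin N → K) (A : Matrix (Fin N) (Fin N) K)
    (D : Fin N → Derivation k K K) :
    lmat x (fun i => ∑ j, A i j • D j) = A * lmat x D := by
  ext i j
  rw [Matrix.mul_apply]
  change (∑ l, A i l • D l) (x j) / x j = ∑ l, A i l * (D l (x j) / x j)
  rw [sum_apply', Finset.sum_div]
  refine Finset.sum_congr rfl fun l _ => ?_
  change A i l * D l (x j) / x j = _
  ring

theorem pull_pluri (z : Fin d → F) (Λ : Fin d → Derivation k F F)
    (η : (Fin d → Derivation k F F) → F) : IsPluri m (pull t z Λ m η) := by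
  intro A D
  unfold pull
  rw [lmat_mul, Matrix.det_mul, mul_pow]
  ring

/-- The pull-back does not depend on the frame. -/
theorem pull_eq {z z' : Fin d → F} {Λ Λ' : Fin d → Derivation k F F} (h : Frame z Λ)
    (h' : Frame z' Λ') {η : (Fin d → Derivation k F F) → F} (hη : IsPluri m η)
    (D : Fin (n + d) → Derivation k K K) : pull t z Λ m η D = pull t z' Λ' m η D := by
  classical
  let P : Matrix (Fin d) (Fin d) F := Matrix.of fun i j => Λ' i (z j) / z j
  have h1 : (fun i => ∑ j, P i j • Λ j) = Λ' := by
    funext i
    refine der_ext z h.basis fun l => ?_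
    rw [sum_apply']
    have h2 : ∀ j, (P i j • Λ j) (z l) = if j = l then Λ' i (z l) else 0 := by
      intro j
      change (Λ' i (z j) / z j) * Λ j (z l) = _
      rw [h.dual]
      split_ifs with hjl
      · rw [hjl, div_mul_cancel₀ _ (h.ne l)]
      · rw [mul_zero]
    simp only [h2]
    rw [Finset.sum_ite_eq' Finset.univ l (fun _ => Λ' i (z l)), if_pos (Finset.mem_univ _)]
  have h2 : η Λ' = P.det ^ m * η Λ := by
    have := hη P Λ
    rwa [h1] at this
  let B : Matrix (Fin (n + d)) (Fin (n + d)) K :=
    Matrix.reindex finSumFinEquiv finSumFinEquiv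
      (Matrix.fromBlocks 1 0 0 ((algebraMap F K).mapMatrix P))
  have hB : B.det = algebraMap F K P.det := by
    simp only [B]
    rw [Matrix.det_reindex_self, Matrix.det_fromBlocks_zero₂₁, Matrix.det_one, one_mul,
      RingHom.map_det]
  have h3 : lmat (crd t z) D = lmat (crd t z') D * B := by
    ext j i
    rw [Matrix.mul_apply, Fin.sum_univ_add]
    refine Fin.addCases (fun i => ?_) (fun i => ?_) i
    · have e1 : ∀ l : Fin n, B (Fin.castAdd d l) (Fin.castAdd d i) = if l = i then 1 else 0 := by
        intro l
        simp [B, Matrix.one_apply]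
      have e2 : ∀ l : Fin d, B (Fin.natAdd n l) (Fin.castAdd d i) = 0 := by
        intro l
        simp [B]
      simp only [e1, e2, mul_zero, Finset.sum_const_zero, add_zero, mul_ite, mul_one,
        Finset.sum_ite_eq', Finset.mem_univ, if_true]
      change D j (crd t z (Fin.castAdd d i)) / crd t z (Fin.castAdd d i) =
        D j (crd t z' (Fin.castAdd d i)) / crd t z' (Fin.castAdd d i)
      unfold crd
      rw [Fin.append_left, Fin.append_left]
    · have e1 : ∀ l : Fin n, B (Fin.castAdd d l) (Fin.natAdd n i) = 0 := by
        intro l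
        simp [B]
      have e2 : ∀ l : Fin d, B (Fin.natAdd n l) (Fin.natAdd n i) = algebraMap F K (P l i) := by
        intro l
        simp [B]
      simp only [e1, e2, mul_zero, Finset.sum_const_zero, zero_add]
      change D j (crd t z (Fin.natAdd n i)) / crd t z (Fin.natAdd n i) =
        ∑ l, D j (crd t z' (Fin.natAdd n l)) / crd t z' (Fin.natAdd n l) * _
      unfold crd
      simp only [Fin.append_right]
      rw [h'.chain (D j) (z i), Finset.sum_div]
      refine Finset.sum_congr rfl fun l _ => ?_
      change _ = _ * algebraMap F K (Λ' l (z i) / z i)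
      rw [map_div₀]
      ring
  unfold pull
  rw [h3, Matrix.det_mul, hB, h2, map_mul, map_pow]
  ring

theorem ge_lmat_det_log {N : ℕ} (x : Fin N → K) (D : Fin N → Derivation k K K)
    (hD : ∀ i, DerLog v (D i)) : Ge v 0 (lmat x D).det :=
  ge_det v _ fun i j => hD i (x j)

/-- Logarithmic poles. -/
theorem pull_log {z : Fin d → F} {Λ : Fin d → Derivation k F F}
    {η : (Fin d → Derivation k F F) → F} (hg : Ge v 0 (algebraMap F K (η Λ))) :
    LogAt v (pull t z Λ m η) := by
  intro D hD
  have h1 := ((ge_lmat_det_log (crd t z) D hD).pow m).mul hg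
  simp only [mul_zero, add_zero] at h1
  exact h1

/-- Regularity where the form vanishes to a high order. -/
theorem pull_reg (ht : AlgebraicIndependent F t) {z : Fin d → F}
    {Λ : Fin d → Derivation k F F} (h : Frame z Λ)
    {η : (Fin d → Derivation k F F) → F} (hg : Ge v m (algebraMap F K (η Λ))) :
    RegAt v (pull t z Λ m η) := by
  intro D hD
  have h1 := ((det_log v D hD (crd t z) (crd_ne ht h.ne)).pow m).mul hg
  have e : (m : ℤ) * (-1) + m = 0 := by ring
  rw [e] at h1
  exact h1

/-- Regularity where the coordinates are units. -/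
theorem pull_reg_unit {z : Fin d → F}
    {Λ : Fin d → Derivation k F F} (h1 : ∀ i, v.ord (t i) = 0)
    (h2 : ∀ i, v.ord (algebraMap F K (z i)) = 0)
    {η : (Fin d → Derivation k F F) → F} (hg : Ge v 0 (algebraMap F K (η Λ))) :
    RegAt v (pull t z Λ m η) := by
  intro D hD
  have h3 : ∀ i, v.ord (crd t z i) = 0 := by
    intro i
    unfold crd
    refine Fin.addCases (fun j => ?_) (fun j => ?_) i
    · rw [Fin.append_left]
      exact h1 j
    · rw [Fin.append_right]
      exact h2 j
  have h4 := ((det_log_unit v D hD (crd t z) h3).pow m).mul hg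
  simp only [mul_zero, add_zero] at h4
  exact h4

/-- Regularity at places which are not monomial. -/
theorem pull_reg_not_mono (ht : AlgebraicIndependent F t) (hv : ¬ MonoPl F t v) {z : Fin d → F}
    {Λ : Fin d → Derivation k F F} (h : Frame z Λ)
    {η : (Fin d → Derivation k F F) → F} (hg : Ge v 0 (algebraMap F K (η Λ))) :
    RegAt v (pull t z Λ m η) := by
  intro D hD
  have h4 := ((ge_det_of_not_mono ht hv h D hD).pow m).mul hg
  simp only [mul_zero, add_zero] at h4
  exact h4

end

end Pool.Agent.V8H92.TB
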