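import Pool.Agent.V8H92.TA.Mono
import Pool.Agent.W73.PG.PULL

/-!
Places which are not monomial: a relation between logarithmic forms.
-/

set_option autoImplicit false
set_option linter.unusedSectionVars false

open FF Pool.Agent.W603.LV Pool.Agent.W619.PQ MvPolynomial Pool.Agent.V8H92.TA

namespace Pool.Agent.V8H92.TB

section

variable {k K : Type} [Field k] [Field K] [Algebra k K]

/-- A determinant of logarithmic differentials with a relation modulo the maximal ideal is
regular. -/
theorem det_rel {N : ℕ} (v : Place k K) (D : Fin N → Derivation k K K) (hD : ∀ j, Pres v (D j))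
    (x b : Fin N → K) (hx : ∀ i, x i ≠ 0) (i0 : Fin N) (hb0 : b i0 ≠ 0)
    (hb : v.ord (b i0) = 0) (R : K) (hR : Ge v 1 R)
    (hrel : ∀ j, D j R = ∑ i, b i * (D j (x i) / x i)) :
    Ge v 0 (Matrix.det (Matrix.of fun j i => D j (x i) / x i)) := by
  classical
  set A : Matrix (Fin N) (Fin N) K := Matrix.of fun j i => D j (x i) / x i with hA
  have h1 : (A.updateCol i0 (fun j => D j R)).det = b i0 * A.det := by
    have h2 := Matrix.det_updateCol_sum A i0 b
    have h3 : (fun k_1 => ∑ j, b j • A k_1 j) = fun j => D j R := by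
      funext j
      rw [hrel]
      rfl
    rw [h3] at h2
    rw [h2]
    rfl
  have h2 : Ge v 0 (b i0 * A.det) := by
    rw [← h1]
    by_cases hR0 : R = 0
    · left
      refine Matrix.det_eq_zero_of_column_eq_zero i0 fun j => ?_
      rw [Matrix.updateCol_self, hR0, map_zero]
    · let x' : Fin N → K := Function.update x i0 R
      have hx' : ∀ i, x' i ≠ 0 := by
        intro i
        by_cases hi : i = i0
        · rw [hi]
          simpa [x'] using hR0
        · simpa [x', hi] using hx i
      have h3 := det_log v D hD x' hx'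
      have h4 : A.updateCol i0 (fun j => D j R) =
          (Matrix.of fun j i => D j (x' i) / x' i).updateCol i0
            (R • fun j => D j R / R) := by
        ext j i
        by_cases hi : i = i0
        · rw [hi, Matrix.updateCol_self, Matrix.updateCol_self]
          change _ = R * (D j R / R)
          field_simp
        · rw [Matrix.updateCol_ne hi, Matrix.updateCol_ne hi]
          simp [hA, x', hi]
      have h5 : (Matrix.of fun j i => D j (x' i) / x' i).updateCol i0 (fun j => D j R / R) =
          Matrix.of fun j i => D j (x' i) / x' i := by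
        ext j i
        by_cases hi : i = i0
        · rw [hi, Matrix.updateCol_self]
          simp [x']
        · rw [Matrix.updateCol_ne hi]
      rw [h4, Matrix.det_updateCol_smul, h5]
      have h6 := hR.mul h3
      have e : (1 : ℤ) + -1 = 0 := by norm_num
      rwa [e] at h6
  rcases h2 with h2 | h2
  · exact Or.inl ((mul_eq_zero.1 h2).resolve_left hb0)
  · by_cases hA0 : A.det = 0
    · exact Or.inl hA0
    · right
      rwa [v.ord_mul hb0 hA0, hb, zero_add] at h2

theorem ord_intCast_ne [CharZero k] (v : Place k K) {m : ℤ} (hm : m ≠ 0) :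
    v.ord (m : K) = 0 ∧ (m : K) ≠ 0 := by
  have h1 : (m : K) = algebraMap k K (m : k) := by simp
  have h2 : (m : k) ≠ 0 := by exact_mod_cast hm
  refine ⟨by rw [h1, v.ord_const h2], ?_⟩
  rw [h1]
  exact (map_ne_zero _).2 h2

end

section

variable {k K : Type} [Field k] [CharZero k] [Field K] [Algebra k K] {F : IntermediateField k K}
  {n : ℕ} {t : Fin n → K} {v : Place k K}

/-- The place is monomial with respect to the variables `t` over `F`. -/
def MonoPl (F : IntermediateField k K) (t : Fin n → K) (v : Place k K) : Prop :=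
  IsMono F t v (RingHom.id K)

/-- A polynomial with terms of the same order. -/
def Iso (t : Fin n → K) (v : Place k K) (Q : MvPolynomial (Fin n) F) (r : ℤ) : Prop :=
  Q ≠ 0 ∧ ∀ a ∈ Q.support, v.ord (term t Q a) = r

/-- A minimal relation at a place which is not monomial. -/
theorem exists_min (ht : AlgebraicIndependent F t) (hv : ¬ MonoPl F t v) :
    ∃ (Q : MvPolynomial (Fin n) F) (r : ℤ), Iso t v Q r ∧ v.ord (aeval t Q) ≠ r ∧
      ∀ (Q' : MvPolynomial (Fin n) F) (r' : ℤ), Iso t v Q' r' →
        Q'.support.card < Q.support.card → v.ord (aeval t Q') = r' := by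
  classical
  have hex : ∃ m : ℕ, ∃ (Q : MvPolynomial (Fin n) F) (r : ℤ), Iso t v Q r ∧
      v.ord (aeval t Q) ≠ r ∧ Q.support.card = m := by
    by_contra hcon
    apply hv
    refine isMono_of ht fun Q r hQ hr => ?_
    by_contra h
    exact hcon ⟨_, Q, r, ⟨hQ, hr⟩, h, rfl⟩
  obtain ⟨Q, r, h1, h2, h3⟩ := Nat.find_spec hex
  refine ⟨Q, r, h1, h2, fun Q' r' h4 h5 => ?_⟩
  by_contra h6
  rw [h3] at h5
  exact Nat.find_min hex h5 ⟨Q', r', h4, h6, rfl⟩

/-- The logarithmic differential of a term. -/
theorem dlog_term (ht : AlgebraicIndependent F t) (D : Derivation k K K)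
    {Q : MvPolynomial (Fin n) F} {a : Fin n →₀ ℕ} (ha : a ∈ Q.support) :
    D (term t Q a) / term t Q a = D (algebraMap F K (Q.coeff a)) / algebraMap F K (Q.coeff a) +
      ∑ i, (a i : K) * (D (t i) / t i) := by
  classical
  have h1 : algebraMap F K (Q.coeff a) ≠ 0 := (map_ne_zero _).2 (mem_support_iff.1 ha)
  have h2 : ∀ s : Finset (Fin n), (∏ i ∈ s, t i ^ a i) ≠ 0 ∧
      D (∏ i ∈ s, t i ^ a i) / (∏ i ∈ s, t i ^ a i) = ∑ i ∈ s, (a i : K) * (D (t i) / t i) := by
    intro s
    induction s using Finset.induction_on with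
    | empty => simp
    | insert i s hi ih =>
      have h3 : t i ^ a i ≠ 0 := pow_ne_zero _ (ht.ne_zero i)
      rw [Finset.prod_insert hi, Finset.sum_insert hi]
      refine ⟨mul_ne_zero h3 ih.1, ?_⟩
      rw [dlog_mul D h3 ih.1, ih.2]
      have h4 := dlog_zpow D (ht.ne_zero i) (a i : ℤ)
      rw [zpow_natCast] at h4
      rw [h4, Int.cast_natCast]
  unfold term
  rw [dlog_mul D h1 (h2 Finset.univ).1, (h2 Finset.univ).2]

/-- **A relation between logarithmic forms** at a place which is not monomial. -/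
theorem exists_rel (ht : AlgebraicIndependent F t) (hv : ¬ MonoPl F t v) :
    ∃ (Q : MvPolynomial (Fin n) F) (a0 : Fin n →₀ ℕ) (j0 : Fin n), a0 ∈ Q.support ∧
      Ge v 1 (aeval t Q / term t Q a0) ∧
      (∀ a ∈ Q.support, v.ord (term t Q a / term t Q a0) = 0) ∧
      (∑ a ∈ Q.support, (term t Q a / term t Q a0) * (((a j0 : ℤ) - a0 j0 : ℤ) : K)) ≠ 0 ∧
      v.ord (∑ a ∈ Q.support, (term t Q a / term t Q a0) * (((a j0 : ℤ) - a0 j0 : ℤ) : K)) = 0 ∧
      ∀ D : Derivation k K K, D (aeval t Q / term t Q a0) =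
        ∑ a ∈ Q.support, (term t Q a / term t Q a0) *
          ((D (algebraMap F K (Q.coeff a)) / algebraMap F K (Q.coeff a) -
            D (algebraMap F K (Q.coeff a0)) / algebraMap F K (Q.coeff a0)) +
            ∑ i, (((a i : ℤ) - a0 i : ℤ) : K) * (D (t i) / t i)) := by
  classical
  obtain ⟨Q, r, ⟨hQ, hr⟩, hne, hmin⟩ := exists_min ht hv
  obtain ⟨a0, ha0⟩ := support_nonempty.2 hQ
  have h0 : term t Q a0 ≠ 0 := term_ne_zero ht ha0
  -- there are at least two terms
  have htwo : ∃ a1 ∈ Q.support, a1 ≠ a0 := by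
    by_contra hcon
    push Not at hcon
    apply hne
    have h1 : Q.support = {a0} := by
      ext a
      rw [Finset.mem_singleton]
      exact ⟨fun h => hcon a h, fun h => h ▸ ha0⟩
    rw [aeval_eq_sum_term, h1, Finset.sum_singleton]
    exact hr a0 ha0
  obtain ⟨a1, ha1, hne1⟩ := htwo
  obtain ⟨j0, hj0⟩ : ∃ j, a1 j ≠ a0 j := by
    by_contra hcon
    push Not at hcon
    exact hne1 (Finsupp.ext hcon)
  -- the polynomial with fewer terms
  let Q' : MvPolynomial (Fin n) F :=
    ∑ a ∈ Q.support, monomial a ((((a j0 : ℤ) - a0 j0 : ℤ) : F) * Q.coeff a)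
  have hcoef : ∀ b, Q'.coeff b = (((b j0 : ℤ) - a0 j0 : ℤ) : F) * Q.coeff b := by
    intro b
    simp only [Q']
    rw [coeff_sum]
    simp only [coeff_monomial]
    rw [Finset.sum_ite_eq']
    split_ifs with h
    · rfl
    · rw [notMem_support_iff.1 h, mul_zero]
  have hterm : ∀ b, term t Q' b = (((b j0 : ℤ) - a0 j0 : ℤ) : K) * term t Q b := by
    intro b
    unfold term
    rw [hcoef, map_mul, map_intCast, mul_assoc]
  have hsupp : ∀ b ∈ Q'.support, b ∈ Q.support ∧ ((b j0 : ℤ) - a0 j0 : ℤ) ≠ 0 := by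
    intro b hb
    rw [mem_support_iff, hcoef] at hb
    refine ⟨mem_support_iff.2 (right_ne_zero_of_mul hb), fun h => ?_⟩
    rw [h, Int.cast_zero, zero_mul] at hb
    exact hb rfl
  have hQ'0 : Q' ≠ 0 := by
    intro h
    have h1 := hcoef a1
    rw [h, coeff_zero] at h1
    have hcF : CharZero F := charZero_of_injective_algebraMap (algebraMap k F).injective
    have h2 : (((a1 j0 : ℤ) - a0 j0 : ℤ) : F) ≠ 0 := by
      have : ((a1 j0 : ℤ) - a0 j0 : ℤ) ≠ 0 := by
        intro h3
        apply hj0
        omega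
      exact_mod_cast this
    exact (mul_ne_zero h2 (mem_support_iff.1 ha1)) h1.symm
  have hiso : Iso t v Q' r := by
    refine ⟨hQ'0, fun b hb => ?_⟩
    obtain ⟨h1, h2⟩ := hsupp b hb
    rw [hterm, v.ord_mul (ord_intCast_ne v h2).2 (term_ne_zero ht h1), (ord_intCast_ne v h2).1,
      zero_add, hr b h1]
  have hcard : Q'.support.card < Q.support.card := by
    refine Finset.card_lt_card ⟨fun b hb => (hsupp b hb).1, fun h => ?_⟩
    have := (hsupp a0 (h ha0)).2
    omega
  have hord' := hmin Q' r hiso hcard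
  have hsum' : aeval t Q' = ∑ a ∈ Q.support, (((a j0 : ℤ) - a0 j0 : ℤ) : K) * term t Q a := by
    simp only [Q']
    rw [map_sum]
    refine Finset.sum_congr rfl fun a _ => ?_
    rw [aeval_monomial, Finsupp.prod_fintype _ _ (fun i => pow_zero _), map_mul, map_intCast]
    unfold term
    ring
  have hbj : (∑ a ∈ Q.support, (term t Q a / term t Q a0) * (((a j0 : ℤ) - a0 j0 : ℤ) : K)) =
      aeval t Q' / term t Q a0 := by
    rw [hsum', Finset.sum_div]
    refine Finset.sum_congr rfl fun a _ => ?_
    ring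
  have hQ't : aeval t Q' ≠ 0 := aeval_ne_zero ht hQ'0
  refine ⟨Q, a0, j0, ha0, ?_, fun a ha => ?_, ?_, ?_, fun D => ?_⟩
  · have h1 : aeval t Q ≠ 0 := aeval_ne_zero ht hQ
    have h2 : Ge v r (aeval t Q) := by
      rw [aeval_eq_sum_term]
      exact Ge.sum _ _ fun a ha => Or.inr (hr a ha).ge
    have h3 := h2.resolve_left h1
    right
    rw [v.ord_div h1 h0, hr a0 ha0]
    omega
  · rw [v.ord_div (term_ne_zero ht ha) h0, hr a ha, hr a0 ha0, sub_self]
  · rw [hbj]
    exact div_ne_zero hQ't h0
  · rw [hbj, v.ord_div hQ't h0, hord', hr a0 ha0, sub_self]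
  · have h1 : aeval t Q / term t Q a0 = ∑ a ∈ Q.support, term t Q a / term t Q a0 := by
      rw [aeval_eq_sum_term, Finset.sum_div]
    rw [h1, map_sum]
    refine Finset.sum_congr rfl fun a ha => ?_
    have h2 : term t Q a ≠ 0 := term_ne_zero ht ha
    have h3 : D (term t Q a / term t Q a0) / (term t Q a / term t Q a0) =
        D (term t Q a) / term t Q a - D (term t Q a0) / term t Q a0 := by
      have h4 := dlog_zpow D h0 (-1)
      rw [zpow_neg_one] at h4
      rw [div_eq_mul_inv (term t Q a), dlog_mul D h2 (inv_ne_zero h0), h4]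
      push_cast
      ring
    have h4 : D (term t Q a / term t Q a0) = (term t Q a / term t Q a0) *
        (D (term t Q a) / term t Q a - D (term t Q a0) / term t Q a0) := by
      rw [← h3]
      have : term t Q a / term t Q a0 ≠ 0 := div_ne_zero h2 h0
      field_simp
    rw [h4, dlog_term ht D ha, dlog_term ht D ha0]
    congr 1
    have h5 : ∑ i, (((a i : ℤ) - a0 i : ℤ) : K) * (D (t i) / t i) =
        ∑ i, (a i : K) * (D (t i) / t i) - ∑ i, (a0 i : K) * (D (t i) / t i) := by
      rw [← Finset.sum_sub_distrib]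
      refine Finset.sum_congr rfl fun i _ => ?_
      push_cast
      ring
    rw [h5]
    ring

end

end Pool.Agent.V8H92.TB
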